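import Pool.Agent.Lib.MP_811d89_an.Final

/-!
# MP_811d89_an: metric surfaces are quasiconformally equivalent to length surfaces

There is a universal constant `K` such that every connected metric surface `X` (boundary allowed)
of locally finite Hausdorff `2`-measure is `K`-quasiconformally homeomorphic to a length space `Y`
of locally finite Hausdorff `2`-measure. The definitions used by the statement are in
`Pool/Agent/Lib/MP_811d89_an/Defs.lean`.

Outline of the proof.

* A skeleton `E` is a closed connected set of locally finite length whose complementary components
  (cells) are small; it is a locally finite union of frontiers of disk like sets (coarea inequality
  and unicoherence of coordinate patches).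
* Let `v` be the length distance to `E` (possibly infinite). A hair is a component of `v > t`; its
  neck is its frontier. The weight `w` is `1` except that deep inside a hair whose neck is short
  compared with the depth (a bottleneck) it is given by a trimmed profile, so that hairs get
  comparable length and width; `w` is zero where `v` is infinite, up to a null set of curves.
* The trimmed distance is the infimum of the `w`-lengths of curves. Bottlenecks are crossed by curves
  of controlled length, so non-trimmed points keep their length distance up to a factor, and the
  points not reachable by rectifiable curves are ends of hairs of trimmed length tending to zero.
  Hence the trimmed distance extends to a metric on all of `X` inducing its topology: this is the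
  length space `Y`.
* `w ^ 2` times the measure of `X` and the measure of `Y` are comparable on good sets, and almost
  every point of every rectifiable curve of `Y` is good or lies in `E`. This gives the two modulus
  inequalities.
-/

open MeasureTheory Set Metric Topology
open scoped ENNReal NNReal

namespace Pool.Agent.Results.MP_811d89_an.LengthSurface

open Pool.Agent.QCS

universe u

/-- Every connected metric surface of locally finite Hausdorff `2`-measure admits a
`K`-quasiconformal homeomorphism onto a length space of locally finite Hausdorff `2`-measure,
with a universal constant `K`. -/
theorem result : ∃ K : ℝ≥0, 1 ≤ K ∧ ∀ (X : Type u) [MetricSpace X] [ConnectedSpace X],
    IsSurface X → LocFinH2 X →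
      ∃ (Y : Type u) (_ : MetricSpace Y), IsLengthSpace Y ∧ LocFinH2 Y ∧
        ∃ f : X ≃ₜ Y, IsQCWith K f :=
  Pool.Agent.QCS.main

end Pool.Agent.Results.MP_811d89_an.LengthSurface
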